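import Mathlib

/-! Quantile transforms relative to a reference law. -/

open MeasureTheory ProbabilityTheory Set Filter Topology

namespace Pool.Agent.V11109.Cvx

/-- The reference law `W`: an absolutely continuous probability measure `ν` on the line whose
distribution function is `0` at `a`, strictly increasing on `[a, d)` and `1` on `[d, ∞)`. -/
structure RefLaw (ν : Measure ℝ) (a : ℝ) (d : EReal) : Prop where
  ac : ν ≪ volume
  zero : cdf ν a = 0
  mono : StrictMonoOn (cdf ν) {x : ℝ | a ≤ x ∧ (x : EReal) < d}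
  one : ∀ x : ℝ, d ≤ x → cdf ν x = 1

/-- The quantile function `inf {x : F x ≥ u}` of a probability measure. -/
noncomputable def quantile (μ : Measure ℝ) (u : ℝ) : ℝ := sInf {x : ℝ | u ≤ cdf μ x}

section quant

variable (μ : Measure ℝ) {u : ℝ}

theorem quantile_le_iff (hu0 : 0 < u) (hu1 : u < 1) (t : ℝ) :
    quantile μ u ≤ t ↔ u ≤ cdf μ t := by
  have hne : {x : ℝ | u ≤ cdf μ x}.Nonempty := by
    obtain ⟨x, hx⟩ := ((tendsto_cdf_atTop μ).eventually (lt_mem_nhds hu1)).exists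
    exact ⟨x, hx.le⟩
  have hbd : BddBelow {x : ℝ | u ≤ cdf μ x} := by
    obtain ⟨x, hx⟩ := ((tendsto_cdf_atBot μ).eventually (gt_mem_nhds hu0)).exists
    refine ⟨x, fun y hy => ?_⟩
    by_contra hcon
    push Not at hcon
    have h1 : cdf μ y ≤ cdf μ x := monotone_cdf μ hcon.le
    have h2 : u ≤ cdf μ y := hy
    exact absurd hx (not_lt.mpr (h2.trans h1))
  constructor
  · intro h
    have h1 : ∀ y > t, u ≤ cdf μ y := by
      intro y hy
      obtain ⟨z, hz, hzy⟩ := exists_lt_of_csInf_lt hne (lt_of_le_of_lt h hy)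
      exact le_trans hz (monotone_cdf μ hzy.le)
    have h2 : Tendsto (cdf μ) (𝓝[>] t) (𝓝 (cdf μ t)) :=
      ((cdf μ).right_continuous t).tendsto.mono_left (nhdsWithin_mono _ Ioi_subset_Ici_self)
    refine ge_of_tendsto h2 ?_
    filter_upwards [self_mem_nhdsWithin] with y hy
    exact h1 y hy
  · intro h
    exact csInf_le hbd h

theorem lt_quantile_iff (hu0 : 0 < u) (hu1 : u < 1) (t : ℝ) :
    t < quantile μ u ↔ cdf μ t < u := by
  rw [← not_le, quantile_le_iff μ hu0 hu1, not_le]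

end quant

namespace RefLaw

variable {ν : Measure ℝ} [IsProbabilityMeasure ν] {a : ℝ} {d : EReal}

theorem continuous_cdf (h : RefLaw ν a d) : Continuous (cdf ν) := by
  rw [continuous_iff_continuousAt]
  intro x
  rw [(monotone_cdf ν).continuousAt_iff_leftLim_eq_rightLim, StieltjesFunction.rightLim_eq]
  have h1 : ν {x} = 0 := h.ac (by simp)
  rw [← measure_cdf ν, StieltjesFunction.measure_singleton, ENNReal.ofReal_eq_zero] at h1
  have h2 := (monotone_cdf ν).leftLim_le (le_refl x)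
  linarith

theorem a_lt_d (h : RefLaw ν a d) : (a : EReal) < d := by
  by_contra hcon
  push Not at hcon
  have := h.one a hcon
  rw [h.zero] at this
  exact zero_ne_one this

theorem cdf_of_le (h : RefLaw ν a d) {x : ℝ} (hx : x ≤ a) : cdf ν x = 0 :=
  le_antisymm (h.zero ▸ monotone_cdf ν hx) (cdf_nonneg ν x)

theorem exists_between (_h : RefLaw ν a d) {x : ℝ} (hx : (x : EReal) < d) :
    ∃ y : ℝ, x < y ∧ (y : EReal) < d := by
  obtain ⟨y, h1, h2⟩ := EReal.exists_between_coe_real hx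
  exact ⟨y, by exact_mod_cast h1, h2⟩

theorem cdf_lt_one (h : RefLaw ν a d) {x : ℝ} (hx : (x : EReal) < d) : cdf ν x < 1 := by
  rcases le_or_gt x a with hxa | hxa
  · rw [h.cdf_of_le hxa]
    exact one_pos
  · obtain ⟨y, hxy, hyd⟩ := h.exists_between hx
    exact (h.mono ⟨hxa.le, hx⟩ ⟨hxa.le.trans hxy.le, hyd⟩ hxy).trans_le (cdf_le_one ν y)

/-- strict monotonicity -/
theorem cdf_lt_iff (h : RefLaw ν a d) {x y : ℝ} (hx : a ≤ x) (hxd : (x : EReal) < d) :
    cdf ν x < cdf ν y ↔ x < y := by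
  constructor
  · intro h1
    by_contra hcon
    push Not at hcon
    exact absurd h1 (not_lt.mpr (monotone_cdf ν hcon))
  · intro h1
    rcases lt_or_ge (y : EReal) d with h2 | h2
    · exact h.mono ⟨hx, hxd⟩ ⟨hx.trans h1.le, h2⟩ h1
    · rw [h.one y h2]
      exact h.cdf_lt_one hxd

theorem cdf_le_iff (h : RefLaw ν a d) {x y : ℝ} (hx : a ≤ x) (hxd : (x : EReal) < d) :
    cdf ν y ≤ cdf ν x ↔ y ≤ x := by
  rw [← not_lt, h.cdf_lt_iff hx hxd, not_lt]

theorem cdf_pos (h : RefLaw ν a d) {x : ℝ} (hx : a < x) : 0 < cdf ν x := by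
  rw [← h.zero, h.cdf_lt_iff le_rfl h.a_lt_d]
  exact hx

theorem exists_eq (h : RefLaw ν a d) {u : ℝ} (hu0 : 0 ≤ u) (hu1 : u < 1) :
    ∃ x : ℝ, a ≤ x ∧ (x : EReal) < d ∧ cdf ν x = u := by
  obtain ⟨y, hy⟩ := ((tendsto_cdf_atTop ν).eventually (lt_mem_nhds hu1)).exists
  have hay : a ≤ y := by
    by_contra hcon
    push Not at hcon
    rw [h.cdf_of_le hcon.le] at hy
    linarith
  obtain ⟨x, hx, hxu⟩ := intermediate_value_Icc hay h.continuous_cdf.continuousOn
    (show u ∈ Icc (cdf ν a) (cdf ν y) from ⟨by rw [h.zero]; exact hu0, hy.le⟩)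
  refine ⟨x, hx.1, ?_, hxu⟩
  by_contra hcon
  push Not at hcon
  rw [h.one x hcon] at hxu
  linarith

theorem measure_cdf_le (h : RefLaw ν a d) {u : ℝ} (hu0 : 0 ≤ u) (hu1 : u ≤ 1) :
    ν {x | cdf ν x ≤ u} = ENNReal.ofReal u := by
  rcases hu1.lt_or_eq with hu | rfl
  · obtain ⟨x, hax, hxd, hxu⟩ := h.exists_eq hu0 hu
    have : {y | cdf ν y ≤ u} = Iic x := by
      ext y
      rw [← hxu]
      exact h.cdf_le_iff hax hxd
    rw [this, ← ofReal_cdf, hxu]
  · have : {y | cdf ν y ≤ 1} = univ := by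
      ext y
      simp [cdf_le_one]
    rw [this]
    simp

/-- almost every point lies in the open interval `(a, d)` -/
theorem ae_mem (h : RefLaw ν a d) : ∀ᵐ x : ℝ ∂ν, a < x ∧ (x : EReal) < d := by
  have h1 : ∀ᵐ x : ℝ ∂ν, a < x := by
    rw [ae_iff]
    have : {x : ℝ | ¬ a < x} = Iic a := by
      ext x
      simp
    rw [this, ← ofReal_cdf, h.zero, ENNReal.ofReal_zero]
  have h2 : ∀ᵐ x : ℝ ∂ν, (x : EReal) < d := by
    rw [ae_iff]
    have hsub : {x : ℝ | ¬ (x : EReal) < d} ⊆ {x | cdf ν x < 1}ᶜ := by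
      intro x hx hx'
      have hx' : cdf ν x < 1 := hx'
      rw [h.one x (not_lt.mp hx)] at hx'
      exact lt_irrefl _ hx'
    refine measure_mono_null hsub ?_
    have h3 : ∀ u : ℝ, 0 ≤ u → u < 1 → ENNReal.ofReal u ≤ ν {x | cdf ν x < 1} := by
      intro u hu0 hu1
      rw [← h.measure_cdf_le hu0 hu1.le]
      exact measure_mono fun x hx => lt_of_le_of_lt hx hu1
    have h4 : 1 ≤ ν {x | cdf ν x < 1} := by
      refine le_of_forall_lt fun b hb => ?_
      have hb' : b ≠ ⊤ := ne_top_of_lt hb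
      obtain ⟨c, hbc, hc1⟩ := _root_.exists_between hb
      refine hbc.trans_le ?_
      have hc' : c ≠ ⊤ := ne_top_of_lt hc1
      have := h3 c.toReal ENNReal.toReal_nonneg (by
        rw [← ENNReal.toReal_one]
        exact (ENNReal.toReal_lt_toReal hc' ENNReal.one_ne_top).mpr hc1)
      rwa [ENNReal.ofReal_toReal hc'] at this
    have hms : MeasurableSet {x | cdf ν x < 1} :=
      measurableSet_lt (monotone_cdf ν).measurable measurable_const
    rw [prob_compl_eq_zero_iff hms]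
    exact le_antisymm prob_le_one h4
  filter_upwards [h1, h2] with x h3 h4 using ⟨h3, h4⟩

theorem nullSet_restrict (h : RefLaw ν a d) : ν.restrict {x : ℝ | a < x ∧ (x : EReal) < d} = ν :=
  Measure.restrict_eq_self_of_ae_mem h.ae_mem

theorem measurableSet_dom (a : ℝ) (d : EReal) : MeasurableSet {x : ℝ | a < x ∧ (x : EReal) < d} :=
  (measurableSet_lt measurable_const measurable_id).inter
    (measurableSet_lt measurable_coe_real_ereal measurable_const)

/-- the transform `φ = F⁻¹ ∘ W` -/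
noncomputable def tr (μ ν : Measure ℝ) (x : ℝ) : ℝ := quantile μ (cdf ν x)

variable (μ : Measure ℝ)

theorem tr_le_iff (h : RefLaw ν a d) {x : ℝ} (hx : a < x) (hxd : (x : EReal) < d) (t : ℝ) :
    tr μ ν x ≤ t ↔ cdf ν x ≤ cdf μ t :=
  quantile_le_iff μ (h.cdf_pos hx) (h.cdf_lt_one hxd) t

theorem lt_tr_iff (h : RefLaw ν a d) {x : ℝ} (hx : a < x) (hxd : (x : EReal) < d) (t : ℝ) :
    t < tr μ ν x ↔ cdf μ t < cdf ν x :=
  lt_quantile_iff μ (h.cdf_pos hx) (h.cdf_lt_one hxd) t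

theorem le_cdf_tr (h : RefLaw ν a d) {x : ℝ} (hx : a < x) (hxd : (x : EReal) < d) :
    cdf ν x ≤ cdf μ (tr μ ν x) := (h.tr_le_iff μ hx hxd _).mp le_rfl

theorem tr_mono (h : RefLaw ν a d) {x y : ℝ} (hx : a < x) (hxy : x ≤ y) (hyd : (y : EReal) < d) :
    tr μ ν x ≤ tr μ ν y := by
  rw [h.tr_le_iff μ hx (lt_of_le_of_lt (by exact_mod_cast hxy) hyd)]
  exact (monotone_cdf ν hxy).trans (h.le_cdf_tr μ (hx.trans_le hxy) hyd)

theorem aemeasurable_tr (h : RefLaw ν a d) : AEMeasurable (tr μ ν) ν := by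
  rw [← h.nullSet_restrict]
  refine aemeasurable_restrict_of_monotoneOn (measurableSet_dom a d) ?_
  intro x hx y hy hxy
  rw [h.nullSet_restrict]
  exact h.tr_mono μ hx.1 hxy hy.2

variable [IsProbabilityMeasure μ]

theorem map_tr (h : RefLaw ν a d) : ν.map (tr μ ν) = μ := by
  have hm := h.aemeasurable_tr μ
  have : IsProbabilityMeasure (ν.map (tr μ ν)) := Measure.isProbabilityMeasure_map hm
  refine Measure.ext_of_Iic _ _ fun t => ?_
  rw [Measure.map_apply_of_aemeasurable hm measurableSet_Iic, ← ofReal_cdf μ t,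
    ← h.measure_cdf_le (cdf_nonneg μ t) (cdf_le_one μ t)]
  refine measure_congr ?_
  filter_upwards [h.ae_mem] with x hx
  exact propext (h.tr_le_iff μ hx.1 hx.2 t)

theorem integral_sq (h : RefLaw ν a d) : ∫ y, y ^ 2 ∂μ = ∫ x, tr μ ν x ^ 2 ∂ν := by
  conv_lhs => rw [← h.map_tr μ]
  exact integral_map (h.aemeasurable_tr μ) (by fun_prop)

theorem integrable_sq_iff (h : RefLaw ν a d) :
    Integrable (fun y : ℝ => y ^ 2) μ ↔ Integrable (fun x => tr μ ν x ^ 2) ν := by
  conv_lhs => rw [← h.map_tr μ]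
  exact integrable_map_measure (by fun_prop) (h.aemeasurable_tr μ)

end RefLaw

end Pool.Agent.V11109.Cvx
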