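import Pool.Agent.V11109.Cvx.Models

/-! The sharp bounds. -/

open MeasureTheory ProbabilityTheory Set Filter Topology

namespace Pool.Agent.V11109.Cvx

/-- The set of all ratios `F⁻¹(p) / m_F`, where `F` ranges over a class of laws. -/
def ratioSet (C : Measure ℝ → Prop) (p : ℝ) : Set ℝ :=
  {t | ∃ μ, C μ ∧ t = quantile μ p / √(∫ x, x ^ 2 ∂μ)}

/-- the class `C⁺` -/
def Cplus (ν : Measure ℝ) (a : ℝ) (μ : Measure ℝ) : Prop := Base μ ∧ ConcaveRel ν a μ

/-- the class `C⁻`, without an atom at the left endpoint -/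
def Cminus (ν : Measure ℝ) (a : ℝ) (μ : Measure ℝ) : Prop :=
  Base μ ∧ cdf μ 0 = 0 ∧ ConvexRel ν a μ

/-- the class `C⁻`, with an atom at the left endpoint allowed -/
def CminusLit (ν : Measure ℝ) (a : ℝ) (μ : Measure ℝ) : Prop := Base μ ∧ ConvexRel ν a μ

theorem ratio_le {T A B M : ℝ} (_hT : 0 ≤ T) (hA : 0 ≤ A) (hB : 0 < B) (hM : 0 < M)
    (h : T ^ 2 * B ≤ A ^ 2 * M) : T / √M ≤ A / √B := by
  rw [div_le_div_iff₀ (Real.sqrt_pos.mpr hM) (Real.sqrt_pos.mpr hB)]
  refine le_of_sq_le_sq ?_ (by positivity)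
  rw [mul_pow, mul_pow, Real.sq_sqrt hB.le, Real.sq_sqrt hM.le]
  exact h

variable {ν : Measure ℝ} [IsProbabilityMeasure ν] {a : ℝ} {d : EReal}

theorem quantile_nonneg {μ : Measure ℝ} (hμ : Base μ) {p : ℝ} (hp0 : 0 < p) (hp1 : p < 1) :
    0 ≤ quantile μ p := by
  by_contra hcon
  push Not at hcon
  have h1 := (quantile_le_iff μ hp0 hp1 (quantile μ p)).mp le_rfl
  rw [hμ.neg _ hcon] at h1
  linarith

/-- the stationarity integral -/
noncomputable def Hf (ν : Measure ℝ) (w c : ℝ) : ℝ := ∫ x, max (x - c) 0 * (x - w) ∂ν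

theorem exists_stat (h : RefLaw ν a d) (hint : Integrable (fun x : ℝ => x ^ 2) ν) {w : ℝ}
    (haw : a < w) (hwd : (w : EReal) < d) :
    ∃ c, a ≤ c ∧ c < w ∧ ((c = a ∧ 0 ≤ Hf ν w c) ∨ Hf ν w c = 0) := by
  rcases le_or_gt 0 (Hf ν w a) with h0 | h0
  · exact ⟨a, le_rfl, haw, Or.inl ⟨rfl, h0⟩⟩
  have hHw : 0 < Hf ν w w := by
    have h1 := (base_m1 h hint haw.le hwd).mpos
    rw [moment_m1] at h1
    convert h1 using 2
    unfold Hf
    congr 1
    funext x
    rcases le_total (x - w) 0 with h | h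
    · rw [max_eq_right h]
      ring
    · rw [max_eq_left h]
      ring
  have hcont : ContinuousOn (Hf ν w) (Icc a w) := by
    refine continuousOn_of_dominated (bound := fun x => 2 * x ^ 2 + (a ^ 2 + w ^ 2)) ?_ ?_ ?_ ?_
    · intro c _
      fun_prop
    · intro c hc
      refine Eventually.of_forall fun x => ?_
      rw [norm_mul, Real.norm_eq_abs, Real.norm_eq_abs, abs_of_nonneg (le_max_right _ _)]
      have h1 : max (x - c) 0 ≤ |x - a| := by
        refine max_le ?_ (abs_nonneg _)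
        have := le_abs_self (x - a)
        linarith [hc.1]
      have h2 : max (x - c) 0 * |x - w| ≤ |x - a| * |x - w| := by gcongr
      have h3 : |x - a| * |x - w| ≤ ((x - a) ^ 2 + (x - w) ^ 2) / 2 := by
        have := sq_nonneg (|x - a| - |x - w|)
        have e1 := sq_abs (x - a)
        have e2 := sq_abs (x - w)
        nlinarith
      nlinarith [sq_nonneg (x + a), sq_nonneg (x + w)]
    · exact (hint.const_mul 2).add (integrable_const _)
    · refine Eventually.of_forall fun x => ?_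
      fun_prop
  obtain ⟨c, hc, hc0⟩ := intermediate_value_Icc haw.le hcont (show (0 : ℝ) ∈ Icc _ _ from
    ⟨h0.le, hHw.le⟩)
  refine ⟨c, hc.1, lt_of_le_of_ne hc.2 ?_, Or.inr hc0⟩
  rintro rfl
  linarith

theorem plus_mem (h : RefLaw ν a d) (hint : Integrable (fun x : ℝ => x ^ 2) ν) {w : ℝ}
    (haw : a < w) (hwd : (w : EReal) < d) {c : ℝ} (hac : a ≤ c) (hcw : c ≤ w) :
    (w - c) / √(∫ x, max (x - c) 0 ^ 2 ∂ν) ∈ ratioSet (Cplus ν a) (cdf ν w) := by
  have hcd : (c : EReal) < d := lt_of_le_of_lt (by exact_mod_cast hcw) hwd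
  refine ⟨m1 ν c, ⟨base_m1 h hint hac hcd, concaveRel_m1 h hac hcd⟩, ?_⟩
  rw [quantile_m1 h haw hwd, moment_m1, max_eq_left (by linarith)]

theorem plus_greatest (h : RefLaw ν a d) (hint : Integrable (fun x : ℝ => x ^ 2) ν) {w : ℝ}
    (haw : a < w) (hwd : (w : EReal) < d) {c : ℝ} (hac : a ≤ c) (hcw : c < w)
    (hH : (c = a ∧ 0 ≤ Hf ν w c) ∨ Hf ν w c = 0) :
    IsGreatest (ratioSet (Cplus ν a) (cdf ν w)) ((w - c) / √(∫ x, max (x - c) 0 ^ 2 ∂ν)) := by
  refine ⟨plus_mem h hint haw hwd hac hcw.le, ?_⟩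
  rintro _ ⟨μ, ⟨hμ, hc⟩, rfl⟩
  have hcd : (c : EReal) < d := lt_trans (by exact_mod_cast hcw) hwd
  have hB := (base_m1 h hint hac hcd).mpos
  rw [moment_m1] at hB
  exact ratio_le (quantile_nonneg hμ (h.cdf_pos haw) (h.cdf_lt_one hwd)) (by linarith) hB hμ.mpos
    (upper_plus h hμ hc hint haw hwd hac hcw hH)

theorem plus_least (h : RefLaw ν a d) (hint : Integrable (fun x : ℝ => x ^ 2) ν) {w : ℝ}
    (haw : a < w) (hwd : (w : EReal) < d) :
    IsLeast (ratioSet (Cplus ν a) (cdf ν w)) 0 := by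
  constructor
  · have := plus_mem h hint haw hwd haw.le le_rfl
    simpa using this
  · rintro _ ⟨μ, ⟨hμ, hc⟩, rfl⟩
    exact div_nonneg (quantile_nonneg hμ (h.cdf_pos haw) (h.cdf_lt_one hwd)) (Real.sqrt_nonneg _)

theorem m2_ratio (h : RefLaw ν a d) {w : ℝ} (haw : a < w) (hwd : (w : EReal) < d) {c K : ℝ}
    (hac : a ≤ c) (hK0 : 0 < K) (hK : ((c + K : ℝ) : EReal) < d) :
    min (max (w - c) 0) K / √(∫ x, min (max (x - c) 0) K ^ 2 ∂ν) ∈
      ratioSet (CminusLit ν a) (cdf ν w) := by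
  refine ⟨m2 ν c K, ⟨base_m2 h hac hK0 hK, convexRel_m2 h hac hK⟩, ?_⟩
  rw [quantile_m2 h haw hwd, moment_m2]

theorem m2_ratio' (h : RefLaw ν a d) {w : ℝ} (haw : a < w) (hwd : (w : EReal) < d) {K : ℝ}
    (hK0 : 0 < K) (hK : ((a + K : ℝ) : EReal) < d) :
    min (w - a) K / √(∫ x, min (max (x - a) 0) K ^ 2 ∂ν) ∈
      ratioSet (Cminus ν a) (cdf ν w) := by
  refine ⟨m2 ν a K, ⟨base_m2 h le_rfl hK0 hK, m2_zero h hK0, convexRel_m2 h le_rfl hK⟩, ?_⟩
  rw [quantile_m2 h haw hwd, moment_m2, max_eq_left (by linarith)]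

theorem minus_greatest (h : RefLaw ν a d) {w : ℝ} (haw : a < w) (hwd : (w : EReal) < d) :
    IsGreatest (ratioSet (Cminus ν a) (cdf ν w))
      (1 / √(∫ x, min ((x - a) / (w - a)) 1 ^ 2 ∂ν)) := by
  have hwa : 0 < w - a := by linarith
  have hd' : ((a + (w - a) : ℝ) : EReal) < d := by
    rw [add_sub_cancel]
    exact hwd
  have e1 : ∫ x, min (max (x - a) 0) (w - a) ^ 2 ∂ν =
      (w - a) ^ 2 * ∫ x, min ((x - a) / (w - a)) 1 ^ 2 ∂ν := by
    rw [← integral_const_mul]
    refine integral_congr_ae ?_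
    filter_upwards [h.ae_mem] with x hx
    rw [max_eq_left (by linarith [hx.1]), ← mul_pow]
    congr 1
    rw [mul_min_of_nonneg _ _ hwa.le, mul_one, mul_div_cancel₀ _ hwa.ne']
  have hpos : 0 < ∫ x, min ((x - a) / (w - a)) 1 ^ 2 ∂ν := by
    have h1 := (base_m2 h le_rfl hwa hd').mpos
    rw [moment_m2, e1] at h1
    exact (mul_pos_iff_of_pos_left (by positivity)).mp h1
  constructor
  · have h1 := m2_ratio' h haw hwd hwa hd'
    rw [min_self, e1, Real.sqrt_mul (by positivity), Real.sqrt_sq hwa.le] at h1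
    convert h1 using 1
    field_simp
  · rintro _ ⟨μ, ⟨hμ, h0, hc⟩, rfl⟩
    refine ratio_le (quantile_nonneg hμ (h.cdf_pos haw) (h.cdf_lt_one hwd)) zero_le_one hpos
      hμ.mpos ?_
    rw [one_pow, one_mul]
    exact upper_minus h hμ h0 hc haw hwd

theorem minus_glb (h : RefLaw ν a d) (hint : Integrable (fun x : ℝ => x ^ 2) ν) {w : ℝ}
    (haw : a < w) (hwd : (w : EReal) < d) :
    IsGLB (ratioSet (Cminus ν a) (cdf ν w)) (min 1 ((w - a) / √(∫ x, (x - a) ^ 2 ∂ν))) := by
  have hwa : 0 < w - a := by linarith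
  have e1 : ∫ x, max (x - a) 0 ^ 2 ∂ν = ∫ x, (x - a) ^ 2 ∂ν := by
    refine integral_congr_ae ?_
    filter_upwards [h.ae_mem] with x hx
    rw [max_eq_left (by linarith [hx.1])]
  have hB : 0 < ∫ x, (x - a) ^ 2 ∂ν := by
    have h1 := (base_m1 h hint le_rfl h.a_lt_d).mpos
    rwa [moment_m1, e1] at h1
  constructor
  · rintro _ ⟨μ, ⟨hμ, h0, hc⟩, rfl⟩
    have hT := quantile_nonneg hμ (h.cdf_pos haw) (h.cdf_lt_one hwd)
    have h1 := lower_minus h hμ h0 hc hint haw hwd
    set L := max 1 ((∫ x, (x - a) ^ 2 ∂ν) / (w - a) ^ 2) with hL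
    have hL0 : 0 < L := lt_of_lt_of_le one_pos (le_max_left _ _)
    have h2 : 1 / √L ≤ quantile μ (cdf ν w) / √(∫ y, y ^ 2 ∂μ) := by
      refine ratio_le zero_le_one hT hμ.mpos hL0 ?_
      rw [one_pow, one_mul]
      exact h1
    refine le_trans ?_ h2
    rcases le_total 1 ((∫ x, (x - a) ^ 2 ∂ν) / (w - a) ^ 2) with hcase | hcase
    · rw [hL, max_eq_right hcase, Real.sqrt_div' _ (by positivity), Real.sqrt_sq hwa.le, one_div_div]
      exact min_le_right _ _
    · rw [hL, max_eq_left hcase, Real.sqrt_one, div_one]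
      exact min_le_left _ _
  · intro b hb
    refine le_min ?_ ?_
    · have h1 : ∀ w' : ℝ, a < w' → w' < w → b ≤ 1 / √(1 - cdf ν w') := by
        intro w' h1 h2
        have hd' : ((a + (w' - a) : ℝ) : EReal) < d := by
          rw [add_sub_cancel]
          exact lt_trans (by exact_mod_cast h2) hwd
        have hwa' : 0 < w' - a := by linarith
        have h3 := hb (m2_ratio' h haw hwd hwa' hd')
        refine h3.trans ?_
        have hcd : cdf ν w' < 1 := h.cdf_lt_one (lt_trans (by exact_mod_cast h2) hwd)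
        have hM := (base_m2 h le_rfl hwa' hd').mpos
        rw [moment_m2] at hM
        refine ratio_le (by positivity) zero_le_one (by linarith) hM ?_
        rw [one_pow, one_mul, min_eq_right (by linarith)]
        have h4 := sq_integral_ge (ν := ν) (mono_m2 a (w' - a))
          (fun x => le_min (le_max_right _ _) hwa'.le) (int_m2 a hwa'.le) w'
        rwa [max_eq_left hwa'.le, min_self] at h4
      have h2 : Tendsto (fun w' => 1 / √(1 - cdf ν w')) (𝓝[>] a) (𝓝 (1 / √(1 - cdf ν a))) := by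
        have hc : ContinuousAt (fun w' => 1 / √(1 - cdf ν w')) a := by
          refine ContinuousAt.div continuousAt_const ?_ ?_
          · exact (Real.continuous_sqrt.comp (continuous_const.sub h.continuous_cdf)).continuousAt
          · rw [h.zero]
            simp
        exact hc.tendsto.mono_left nhdsWithin_le_nhds
      rw [h.zero, sub_zero, Real.sqrt_one, div_one] at h2
      refine ge_of_tendsto h2 ?_
      filter_upwards [Ioo_mem_nhdsGT haw] with w' hw'
      exact h1 w' hw'.1 hw'.2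
    · refine hb ⟨m1 ν a, ⟨base_m1 h hint le_rfl h.a_lt_d, m1_zero h,
        convexRel_m1 h le_rfl h.a_lt_d⟩, ?_⟩
      rw [quantile_m1 h haw hwd, moment_m1, max_eq_left hwa.le, e1]

theorem d_eq_top (h : RefLaw ν a d) (hint : ¬ Integrable (fun x : ℝ => x ^ 2) ν) : d = ⊤ := by
  by_contra hcon
  apply hint
  have hbot : d ≠ ⊥ := ne_bot_of_gt h.a_lt_d
  lift d to ℝ using ⟨hcon, hbot⟩
  refine Integrable.mono' (g := fun _ => (|a| + |d|) ^ 2) (integrable_const _) (by fun_prop) ?_
  filter_upwards [h.ae_mem] with x hx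
  have hxd : x < d := by exact_mod_cast hx.2
  rw [Real.norm_of_nonneg (by positivity), ← sq_abs]
  refine pow_le_pow_left₀ (abs_nonneg _) ?_ 2
  rw [abs_le]
  constructor
  · linarith [neg_abs_le a, abs_nonneg d, hx.1]
  · linarith [le_abs_self d, abs_nonneg a]

theorem trunc_tendsto (h : RefLaw ν a d) (hint : ¬ Integrable (fun x : ℝ => x ^ 2) ν) :
    Tendsto (fun n : ℕ => ∫ x, min (max (x - a) 0) (n : ℝ) ^ 2 ∂ν) atTop atTop := by
  have hmono : Monotone fun n : ℕ => ∫ x, min (max (x - a) 0) (n : ℝ) ^ 2 ∂ν := by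
    intro m n hmn
    refine integral_mono (int_m2 a (Nat.cast_nonneg m)) (int_m2 a (Nat.cast_nonneg n)) fun x => ?_
    refine pow_le_pow_left₀ (le_min (le_max_right _ _) (Nat.cast_nonneg m)) ?_ 2
    exact min_le_min le_rfl (Nat.cast_le.mpr hmn)
  refine tendsto_atTop_atTop_of_monotone hmono fun b => ?_
  by_contra hcon
  push Not at hcon
  apply hint
  -- the truncated integrals are bounded, hence the square is integrable
  have h1 : ∫⁻ x, ENNReal.ofReal (max (x - a) 0 ^ 2) ∂ν ≤ ENNReal.ofReal b := by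
    have h2 : Tendsto (fun n : ℕ => ∫⁻ x, ENNReal.ofReal (min (max (x - a) 0) (n : ℝ) ^ 2) ∂ν) atTop
        (𝓝 (∫⁻ x, ENNReal.ofReal (max (x - a) 0 ^ 2) ∂ν)) := by
      refine lintegral_tendsto_of_tendsto_of_monotone (fun n => by fun_prop) ?_ ?_
      · refine Eventually.of_forall fun x m n hmn => ?_
        refine ENNReal.ofReal_le_ofReal ?_
        refine pow_le_pow_left₀ (le_min (le_max_right _ _) (Nat.cast_nonneg m)) ?_ 2
        exact min_le_min le_rfl (Nat.cast_le.mpr hmn)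
      · refine Eventually.of_forall fun x => ?_
        refine tendsto_const_nhds.congr' ?_
        filter_upwards [eventually_ge_atTop ⌈max (x - a) 0⌉₊] with n hn
        rw [min_eq_left (Nat.ceil_le.mp hn)]
    refine le_of_tendsto h2 (Eventually.of_forall fun n => ?_)
    rw [← ofReal_integral_eq_lintegral_ofReal (int_m2 a (Nat.cast_nonneg n))
      (Eventually.of_forall fun x => by positivity)]
    exact ENNReal.ofReal_le_ofReal (hcon n).le
  have h3 : Integrable (fun x : ℝ => max (x - a) 0 ^ 2) ν := by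
    refine ⟨by fun_prop, ?_⟩
    rw [hasFiniteIntegral_iff_ofReal (Eventually.of_forall fun x => by positivity)]
    exact lt_of_le_of_lt h1 ENNReal.ofReal_lt_top
  refine Integrable.mono' (g := fun x : ℝ => 2 * max (x - a) 0 ^ 2 + 2 * a ^ 2)
    ((h3.const_mul 2).add (integrable_const _)) (by fun_prop) ?_
  filter_upwards [h.ae_mem] with x hx
  rw [Real.norm_of_nonneg (by positivity), max_eq_left (by linarith [hx.1])]
  nlinarith [sq_nonneg (x - 2 * a)]

theorem minus_glb' (h : RefLaw ν a d) (hint : ¬ Integrable (fun x : ℝ => x ^ 2) ν) {w : ℝ}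
    (haw : a < w) (hwd : (w : EReal) < d) :
    IsGLB (ratioSet (Cminus ν a) (cdf ν w)) 0 := by
  constructor
  · rintro _ ⟨μ, ⟨hμ, _, hc⟩, rfl⟩
    exact div_nonneg (quantile_nonneg hμ (h.cdf_pos haw) (h.cdf_lt_one hwd)) (Real.sqrt_nonneg _)
  · intro b hb
    have hd := d_eq_top h hint
    have h1 : Tendsto (fun n : ℕ => (w - a) / √(∫ x, min (max (x - a) 0) (n : ℝ) ^ 2 ∂ν)) atTop
        (𝓝 0) :=
      tendsto_const_nhds.div_atTop (Real.tendsto_sqrt_atTop.comp (trunc_tendsto h hint))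
    refine ge_of_tendsto h1 ?_
    filter_upwards [eventually_ge_atTop (⌈w - a⌉₊ + 1)] with n hn
    have h2 : w - a ≤ n := (Nat.le_ceil _).trans (by exact_mod_cast (Nat.le_succ _).trans hn)
    have h3 := hb (m2_ratio' h haw hwd (K := n) (by linarith) (by rw [hd]; exact EReal.coe_lt_top _))
    rwa [min_eq_left h2] at h3

theorem lit_lub (h : RefLaw ν a d) {w : ℝ} (haw : a < w) (hwd : (w : EReal) < d) :
    IsLUB (ratioSet (CminusLit ν a) (cdf ν w)) (1 / √(1 - cdf ν w)) := by
  have hp1 := h.cdf_lt_one hwd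
  constructor
  · rintro _ ⟨μ, ⟨hμ, hc⟩, rfl⟩
    refine ratio_le (quantile_nonneg hμ (h.cdf_pos haw) (h.cdf_lt_one hwd)) zero_le_one
      (by linarith) hμ.mpos ?_
    rw [one_pow, one_mul]
    exact trivial_bound h hμ haw hwd
  · intro b hb
    have h1 : ∀ c, a < c → c < w → 1 / √(1 - cdf ν c) ≤ b := by
      intro c hac hcw
      have hwc : 0 < w - c := by linarith
      have hd' : ((c + (w - c) : ℝ) : EReal) < d := by
        rw [add_sub_cancel]
        exact hwd
      refine le_trans ?_ (hb (m2_ratio h haw hwd hac.le hwc hd'))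
      have hM := (base_m2 h hac.le hwc hd').mpos
      rw [moment_m2] at hM
      have hcd : cdf ν c < 1 := h.cdf_lt_one (lt_trans (by exact_mod_cast hcw) hwd)
      refine ratio_le zero_le_one (le_min (le_max_right _ _) hwc.le) hM (by linarith) ?_
      rw [one_pow, one_mul, max_eq_left hwc.le, min_self]
      refine sq_integral_le (fun x => le_min (le_max_right _ _) hwc.le) ?_
        (fun x => min_le_right _ _)
      intro x hx
      rw [max_eq_right (by linarith), min_eq_left hwc.le]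
    have h2 : Tendsto (fun w' => 1 / √(1 - cdf ν w')) (𝓝[<] w) (𝓝 (1 / √(1 - cdf ν w))) := by
      have hc : ContinuousAt (fun w' => 1 / √(1 - cdf ν w')) w := by
        refine ContinuousAt.div continuousAt_const ?_ ?_
        · exact (Real.continuous_sqrt.comp (continuous_const.sub h.continuous_cdf)).continuousAt
        · exact (Real.sqrt_pos.mpr (by linarith)).ne'
      exact hc.tendsto.mono_left nhdsWithin_le_nhds
    refine le_of_tendsto h2 ?_
    filter_upwards [Ioo_mem_nhdsLT haw] with c hc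
    exact h1 c hc.1 hc.2

theorem lit_least (h : RefLaw ν a d) {w : ℝ} (haw : a < w) (hwd : (w : EReal) < d) :
    IsLeast (ratioSet (CminusLit ν a) (cdf ν w)) 0 := by
  constructor
  · obtain ⟨y, hwy, hyd⟩ := h.exists_between hwd
    have h1 := m2_ratio h haw hwd haw.le (K := y - w) (by linarith) (by
      rw [add_sub_cancel]
      exact hyd)
    rw [sub_self, max_self, min_eq_left (by linarith), zero_div] at h1
    exact h1
  · rintro _ ⟨μ, ⟨hμ, hc⟩, rfl⟩
    exact div_nonneg (quantile_nonneg hμ (h.cdf_pos haw) (h.cdf_lt_one hwd)) (Real.sqrt_nonneg _)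

end Pool.Agent.V11109.Cvx
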