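import Pool.Agent.V11109.Cvx.Shape

/-! The sharp inequalities. -/

open MeasureTheory ProbabilityTheory Set Filter Topology

namespace Pool.Agent.V11109.Cvx

theorem exists_support {D : Set ℝ} {f : ℝ → ℝ} (hf : ConvexOn ℝ D f) {w x₁ x₂ : ℝ}
    (h1 : x₁ ∈ D) (h2 : x₂ ∈ D) (h1w : x₁ < w) (hw2 : w < x₂) :
    ∃ s : ℝ, ∀ x ∈ D, f w + s * (x - w) ≤ f x := by
  have hw : w ∈ D := by
    have := hf.1.ordConnected.out h1 h2
    exact this ⟨h1w.le, hw2.le⟩
  let S : Set ℝ := {m | ∃ x ∈ D, x < w ∧ m = (f w - f x) / (w - x)}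
  have hne : S.Nonempty := ⟨_, x₁, h1, h1w, rfl⟩
  have hub : ∀ x ∈ D, w < x → ∀ m ∈ S, m ≤ (f x - f w) / (x - w) := by
    rintro x hx hwx _ ⟨y, hy, hyw, rfl⟩
    exact hf.slope_mono_adjacent hy hx hyw hwx
  have hbd : BddAbove S := ⟨_, fun m hm => hub x₂ h2 hw2 m hm⟩
  refine ⟨sSup S, fun x hx => ?_⟩
  rcases lt_trichotomy x w with h | h | h
  · have h3 : (f w - f x) / (w - x) ≤ sSup S := le_csSup hbd ⟨x, hx, h, rfl⟩
    rw [div_le_iff₀ (by linarith)] at h3
    linarith
  · rw [h]
    simp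
  · have h3 : sSup S ≤ (f x - f w) / (x - w) := csSup_le hne fun m hm => hub x hx h m hm
    rw [le_div_iff₀ (by linarith)] at h3
    linarith

variable {ν : Measure ℝ} [IsProbabilityMeasure ν] {a : ℝ} {d : EReal} {μ : Measure ℝ}

open RefLaw

/-- the supporting slope is at least `φ(w)/(w-a)` -/
theorem slope_ge (h : RefLaw ν a d) (hμ : Base μ) {w s : ℝ} (haw : a < w)
    (hs : ∀ x, a < x → (x : EReal) < d → tr μ ν w + s * (x - w) ≤ tr μ ν x) :
    tr μ ν w ≤ s * (w - a) := by
  refine le_of_forall_pos_le_add fun ε hε => ?_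
  obtain ⟨b, hab, hbd, hb⟩ := hμ.exists_tr_le h (half_pos hε)
  set η := min (b - a) (ε / (2 * (|s| + 1))) with hη
  have hη0 : 0 < η := lt_min (by linarith) (by positivity)
  have h1 : a + η ≤ b := by
    have := min_le_left (b - a) (ε / (2 * (|s| + 1)))
    linarith
  have h2 := hs (a + η) (by linarith) (lt_of_le_of_lt (by exact_mod_cast h1) hbd)
  have h3 := hb (a + η) (by linarith) h1
  have h4 : |s| * η ≤ ε / 2 := by
    have h5 : η ≤ ε / (2 * (|s| + 1)) := min_le_right _ _
    have h6 : |s| * η ≤ (|s| + 1) * η := by nlinarith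
    have h7 : (|s| + 1) * η ≤ (|s| + 1) * (ε / (2 * (|s| + 1))) := by gcongr
    have h8 : (|s| + 1) * (ε / (2 * (|s| + 1))) = ε / 2 := by field_simp
    linarith
  have h9 : -(s * η) ≤ |s| * η := by
    have := neg_abs_le s
    nlinarith
  nlinarith

/-- upper bound for `C⁺` -/
theorem upper_plus (h : RefLaw ν a d) (hμ : Base μ) (hc : ConcaveRel ν a μ)
    (hint : Integrable (fun x : ℝ => x ^ 2) ν) {w c : ℝ} (haw : a < w) (hwd : (w : EReal) < d)
    (hac : a ≤ c) (hcw : c < w)
    (hH : (c = a ∧ 0 ≤ ∫ x, max (x - c) 0 * (x - w) ∂ν) ∨ ∫ x, max (x - c) 0 * (x - w) ∂ν = 0) :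
    tr μ ν w ^ 2 * ∫ x, max (x - c) 0 ^ 2 ∂ν ≤ (w - c) ^ 2 * ∫ y, y ^ 2 ∂μ := by
  have := hμ.prob
  have hconv := convexOn_tr h hμ hc
  obtain ⟨y, hwy, hyd⟩ := h.exists_between hwd
  obtain ⟨s, hs⟩ := exists_support hconv (w := w) (x₁ := (a + w) / 2) (x₂ := y)
    ⟨by linarith, lt_trans (by exact_mod_cast (by linarith : (a + w) / 2 < w)) hwd⟩
    ⟨haw.trans hwy, hyd⟩ (by linarith) hwy
  set K := tr μ ν w with hK
  have hK0 : 0 ≤ K := hμ.tr_nonneg h haw hwd
  have hslope : K ≤ s * (w - a) := slope_ge h hμ haw fun x hx hxd => hs x ⟨hx, hxd⟩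
  have hφ2 : Integrable (fun x => tr μ ν x ^ 2) ν := (h.integrable_sq_iff μ).mp hμ.int
  have hid : Integrable (fun x : ℝ => x) ν := by
    refine (MemLp.integrable one_le_two ?_)
    exact (memLp_two_iff_integrable_sq (by fun_prop)).mpr hint
  have hθ2 : Integrable (fun x : ℝ => max (x - c) 0 ^ 2) ν := by
    refine Integrable.mono' (g := fun x : ℝ => 2 * x ^ 2 + 2 * c ^ 2)
      ((hint.const_mul 2).add (integrable_const _)) (by fun_prop) ?_
    refine Eventually.of_forall fun x => ?_
    rw [Real.norm_of_nonneg (by positivity)]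
    have h1 : max (x - c) 0 ^ 2 ≤ (x - c) ^ 2 := by
      rcases le_total (x - c) 0 with h | h
      · rw [max_eq_right h]
        nlinarith [sq_nonneg (x - c)]
      · rw [max_eq_left h]
    nlinarith [sq_nonneg (x + c)]
  have hθ : Integrable (fun x : ℝ => max (x - c) 0) ν :=
    (hid.sub (integrable_const c)).sup (integrable_const 0)
  have hHint : Integrable (fun x : ℝ => max (x - c) 0 * (x - w)) ν := by
    have : (fun x : ℝ => max (x - c) 0 * (x - w)) =
        fun x => max (x - c) 0 ^ 2 - (w - c) * max (x - c) 0 := by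
      funext x
      rcases le_total (x - c) 0 with h | h
      · rw [max_eq_right h]
        ring
      · rw [max_eq_left h]
        ring
    rw [this]
    exact hθ2.sub (hθ.const_mul _)
  set H := ∫ x, max (x - c) 0 * (x - w) ∂ν with hHdef
  set M := ∫ x, max (x - c) 0 ^ 2 ∂ν with hM
  set M₁ := ∫ x, max (x - c) 0 ∂ν with hM₁
  have hrel : M = H + (w - c) * M₁ := by
    rw [hM, hHdef, hM₁, ← integral_const_mul, ← integral_add hHint (hθ.const_mul _)]
    refine integral_congr_ae (Eventually.of_forall fun x => ?_)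
    dsimp only
    rcases le_total (x - c) 0 with h | h
    · rw [max_eq_right h]
      ring
    · rw [max_eq_left h]
      ring
  have hwc : 0 < w - c := by linarith
  -- integrated inequality
  have hmain : (2 * K / (w - c)) * (K * M₁ + s * H) - K ^ 2 / (w - c) ^ 2 * M ≤
      ∫ x, tr μ ν x ^ 2 ∂ν := by
    have i1 : Integrable (fun x : ℝ => K * max (x - c) 0) ν := hθ.const_mul _
    have i2 : Integrable (fun x : ℝ => s * (max (x - c) 0 * (x - w))) ν := hHint.const_mul _
    have i3 : Integrable (fun x : ℝ => K * max (x - c) 0 + s * (max (x - c) 0 * (x - w))) ν :=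
      i1.add i2
    have i4 : Integrable (fun x : ℝ =>
        (2 * K / (w - c)) * (K * max (x - c) 0 + s * (max (x - c) 0 * (x - w)))) ν :=
      i3.const_mul _
    have i5 : Integrable (fun x : ℝ => K ^ 2 / (w - c) ^ 2 * max (x - c) 0 ^ 2) ν :=
      hθ2.const_mul _
    have e1 : (2 * K / (w - c)) * (K * M₁ + s * H) - K ^ 2 / (w - c) ^ 2 * M =
        ∫ x, ((2 * K / (w - c)) * (K * max (x - c) 0 + s * (max (x - c) 0 * (x - w))) -
          K ^ 2 / (w - c) ^ 2 * max (x - c) 0 ^ 2) ∂ν := by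
      rw [integral_sub i4 i5, integral_const_mul, integral_add i1 i2, integral_const_mul,
        integral_const_mul, integral_const_mul]
    rw [e1]
    refine integral_mono_ae (i4.sub i5) hφ2 ?_
    filter_upwards [h.ae_mem] with x hx
    have h1 := hs x hx
    set θ := max (x - c) 0 with hθdef
    have hθ0 : 0 ≤ θ := le_max_right _ _
    have h2 : (K + s * (x - w)) * θ ≤ tr μ ν x * θ := by gcongr
    have h3 : (2 * K / (w - c)) * (K * θ + s * (θ * (x - w))) ≤
        (2 * K / (w - c)) * (tr μ ν x * θ) := by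
      gcongr
      linarith
    have h4 : 0 ≤ (tr μ ν x - K / (w - c) * θ) ^ 2 := sq_nonneg _
    have h5 : (tr μ ν x - K / (w - c) * θ) ^ 2 = tr μ ν x ^ 2 -
        (2 * K / (w - c)) * (tr μ ν x * θ) + K ^ 2 / (w - c) ^ 2 * θ ^ 2 := by
      field_simp
      ring
    linarith
  rw [h.integral_sq μ]
  have hfin : 0 ≤ 2 * K * H * (s * (w - c) - K) := by
    rcases hH with ⟨hca, hH0⟩ | hH0
    · subst hca
      have : 0 ≤ s * (w - c) - K := by linarith
      positivity
    · rw [hH0]
      simp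
  have hmain2 := mul_le_mul_of_nonneg_left hmain (sq_nonneg (w - c))
  have e2 : (w - c) ^ 2 * ((2 * K / (w - c)) * (K * M₁ + s * H) - K ^ 2 / (w - c) ^ 2 * M) =
      2 * K * (K * ((w - c) * M₁) + s * (w - c) * H) - K ^ 2 * M := by
    field_simp
  rw [e2] at hmain2
  have e3 : (w - c) * M₁ = M - H := by linarith
  rw [e3] at hmain2
  nlinarith

/-- If the reference law has infinite second moment, then so has every nontrivial element of the
class `C⁺`. -/
theorem integrable_of_plus (h : RefLaw ν a d) (hμ : Base μ) (hc : ConcaveRel ν a μ) :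
    Integrable (fun x : ℝ => x ^ 2) ν := by
  have := hμ.prob
  have hconv := convexOn_tr h hμ hc
  have hφ2 : Integrable (fun x => tr μ ν x ^ 2) ν := (h.integrable_sq_iff μ).mp hμ.int
  obtain ⟨x₀, hx₀, hx₀d, hpos⟩ : ∃ x, a < x ∧ (x : EReal) < d ∧ 0 < tr μ ν x := by
    by_contra hcon
    push Not at hcon
    have h0 : ∫ x, tr μ ν x ^ 2 ∂ν = 0 := by
      rw [integral_eq_zero_of_ae]
      filter_upwards [h.ae_mem] with x hx
      have : tr μ ν x = 0 := le_antisymm (hcon x hx.1 hx.2) (hμ.tr_nonneg h hx.1 hx.2)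
      rw [this]
      simp
    have := hμ.mpos
    rw [h.integral_sq μ, h0] at this
    exact lt_irrefl _ this
  obtain ⟨y, hwy, hyd⟩ := h.exists_between hx₀d
  obtain ⟨s, hs⟩ := exists_support hconv (w := x₀) (x₁ := (a + x₀) / 2) (x₂ := y)
    ⟨by linarith, lt_trans (by exact_mod_cast (by linarith : (a + x₀) / 2 < x₀)) hx₀d⟩
    ⟨hx₀.trans hwy, hyd⟩ (by linarith) hwy
  have hslope := slope_ge h hμ hx₀ fun x hx hxd => hs x ⟨hx, hxd⟩
  have hs0 : 0 < s := by
    by_contra hcon
    push Not at hcon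
    have : s * (x₀ - a) ≤ 0 := mul_nonpos_of_nonpos_of_nonneg hcon (by linarith)
    linarith
  refine Integrable.mono' (g := fun x : ℝ => 2 * (1 / s) ^ 2 * tr μ ν x ^ 2 +
      2 * (|a| + |x₀|) ^ 2) ((hφ2.const_mul _).add (integrable_const _)) (by fun_prop) ?_
  filter_upwards [h.ae_mem] with x hx
  rw [Real.norm_of_nonneg (by positivity)]
  have h1 := hs x hx
  have h2 : |x| ≤ 1 / s * tr μ ν x + (|a| + |x₀|) := by
    have hφ := hμ.tr_nonneg h hx.1 hx.2
    have e1 : 0 ≤ 1 / s * tr μ ν x := by positivity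
    rw [abs_le]
    constructor
    · have := neg_abs_le a
      have := abs_nonneg x₀
      linarith [hx.1]
    · have h3 : s * (x - x₀) ≤ tr μ ν x := by linarith
      have h4 : x - x₀ ≤ 1 / s * tr μ ν x := by
        rw [one_div_mul_eq_div, le_div_iff₀ hs0]
        linarith
      have := le_abs_self x₀
      have := abs_nonneg a
      linarith
  have h3 : x ^ 2 ≤ (1 / s * tr μ ν x + (|a| + |x₀|)) ^ 2 := by
    rw [← sq_abs]
    exact pow_le_pow_left₀ (abs_nonneg _) h2 2
  nlinarith [sq_nonneg (1 / s * tr μ ν x - (|a| + |x₀|))]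

/-- upper bound for `C⁻` -/
theorem upper_minus (h : RefLaw ν a d) (hμ : Base μ) (h0 : cdf μ 0 = 0) (hc : ConvexRel ν a μ)
    {w : ℝ} (haw : a < w) (hwd : (w : EReal) < d) :
    tr μ ν w ^ 2 * ∫ x, min ((x - a) / (w - a)) 1 ^ 2 ∂ν ≤ ∫ y, y ^ 2 ∂μ := by
  have := hμ.prob
  have hconc := concaveOn_tr h hμ h0 hc
  set K := tr μ ν w with hK
  have hK0 : 0 ≤ K := hμ.tr_nonneg h haw hwd
  have hφ2 : Integrable (fun x => tr μ ν x ^ 2) ν := (h.integrable_sq_iff μ).mp hμ.int
  have hwa : 0 < w - a := by linarith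
  have hpt : ∀ x, a < x → (x : EReal) < d → K * min ((x - a) / (w - a)) 1 ≤ tr μ ν x := by
    intro x hx hxd
    rcases le_or_gt w x with hwx | hxw
    · calc K * min ((x - a) / (w - a)) 1 ≤ K * 1 := by
            gcongr
            exact min_le_right _ _
        _ ≤ _ := by
            rw [mul_one]
            exact h.tr_mono μ haw hwx hxd
    · have hφ0 := hμ.tr_nonneg h hx hxd
      have h1 : K * (x - a) ≤ tr μ ν x * (w - a) := by
        by_contra hcon
        push Not at hcon
        have hlt : tr μ ν x < K := by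
          by_contra hcon'
          push Not at hcon'
          nlinarith
        set ε := (K * (x - a) - tr μ ν x * (w - a)) / (2 * (K + 1)) with hε
        have hε0 : 0 < ε := by
          rw [hε]
          apply div_pos (by linarith)
          positivity
        have hεx : a + ε < x := by
          have : ε < x - a := by
            rw [hε, div_lt_iff₀ (by positivity)]
            nlinarith
          linarith
        have h2 := hconc.slope_anti_adjacent (x := a + ε) (y := x) (z := w)
          ⟨by linarith, lt_trans (by exact_mod_cast hεx) hxd⟩ ⟨haw, hwd⟩ hεx hxw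
        have h3 : 0 ≤ tr μ ν (a + ε) :=
          hμ.tr_nonneg h (by linarith) (lt_trans (by exact_mod_cast hεx) hxd)
        rw [div_le_div_iff₀ (by linarith) (by linarith)] at h2
        have h4 : (K - tr μ ν x) * (x - (a + ε)) ≤ tr μ ν x * (w - x) := by
          refine h2.trans ?_
          have : 0 < w - x := by linarith
          gcongr
          linarith
        have h5 : (K + 1) * ε = (K * (x - a) - tr μ ν x * (w - a)) / 2 := by
          rw [hε]
          field_simp
        nlinarith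
      calc K * min ((x - a) / (w - a)) 1 ≤ K * ((x - a) / (w - a)) := by
            gcongr
            exact min_le_left _ _
        _ = K * (x - a) / (w - a) := by ring
        _ ≤ _ := by
            rw [div_le_iff₀ hwa]
            exact h1
  rw [h.integral_sq μ, ← integral_const_mul]
  refine integral_mono_of_nonneg (Eventually.of_forall fun x => by positivity) hφ2 ?_
  filter_upwards [h.ae_mem] with x hx
  have h1 := hpt x hx.1 hx.2
  have h2 : 0 ≤ K * min ((x - a) / (w - a)) 1 := by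
    have : 0 ≤ (x - a) / (w - a) := div_nonneg (by linarith [hx.1]) hwa.le
    positivity
  rw [← mul_pow]
  exact pow_le_pow_left₀ h2 h1 2

/-- lower bound for `C⁻` -/
theorem lower_minus (h : RefLaw ν a d) (hμ : Base μ) (h0 : cdf μ 0 = 0) (hc : ConvexRel ν a μ)
    (hint : Integrable (fun x : ℝ => x ^ 2) ν) {w : ℝ} (haw : a < w) (hwd : (w : EReal) < d) :
    ∫ y, y ^ 2 ∂μ ≤ tr μ ν w ^ 2 * max 1 ((∫ x, (x - a) ^ 2 ∂ν) / (w - a) ^ 2) := by
  have := hμ.prob
  have hconc := concaveOn_tr h hμ h0 hc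
  set K := tr μ ν w with hK
  have hK0 : 0 < K := by
    rw [hK, h.lt_tr_iff μ haw hwd, h0]
    exact h.cdf_pos haw
  have hwa : 0 < w - a := by linarith
  obtain ⟨y, hwy, hyd⟩ := h.exists_between hwd
  obtain ⟨s', hs'⟩ := exists_support hconc.neg (w := w) (x₁ := (a + w) / 2) (x₂ := y)
    ⟨by linarith, lt_trans (by exact_mod_cast (by linarith : (a + w) / 2 < w)) hwd⟩
    ⟨haw.trans hwy, hyd⟩ (by linarith) hwy
  set s := -s' with hsdef
  have hs : ∀ x, a < x → (x : EReal) < d → tr μ ν x ≤ K + s * (x - w) := by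
    intro x hx hxd
    have := hs' x ⟨hx, hxd⟩
    simp only [Pi.neg_apply] at this
    rw [← hK] at this
    rw [hsdef]
    linarith
  have hs0 : 0 ≤ s := by
    by_contra hcon
    push Not at hcon
    have h1 := hs y (haw.trans hwy) hyd
    have h2 := h.tr_mono μ haw hwy.le hyd
    have : s * (y - w) < 0 := mul_neg_of_neg_of_pos hcon (by linarith)
    linarith
  have hs1 : s * (w - a) ≤ K := by
    refine le_of_forall_pos_le_add fun ε hε => ?_
    set η := min ((w - a) / 2) (ε / (s + 1)) with hη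
    have hη0 : 0 < η := lt_min (by linarith) (by positivity)
    have h1 : a + η < w := by
      have := min_le_left ((w - a) / 2) (ε / (s + 1))
      linarith
    have hd' : ((a + η : ℝ) : EReal) < d := lt_trans (by exact_mod_cast h1) hwd
    have h2 := hs (a + η) (by linarith) hd'
    have h3 := hμ.tr_nonneg h (x := a + η) (by linarith) hd'
    have h4 : s * η ≤ ε := by
      have h5 : η ≤ ε / (s + 1) := min_le_right _ _
      have h6 : s * η ≤ (s + 1) * η := by nlinarith
      have h7 : (s + 1) * η ≤ (s + 1) * (ε / (s + 1)) := by gcongr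
      have h8 : (s + 1) * (ε / (s + 1)) = ε := by field_simp
      linarith
    nlinarith
  set l := s * (w - a) / K with hl
  have hl0 : 0 ≤ l := by positivity
  have hl1 : l ≤ 1 := (div_le_one hK0).mpr hs1
  have hxa : Integrable (fun x : ℝ => (x - a) ^ 2) ν := by
    refine Integrable.mono' (g := fun x : ℝ => 2 * x ^ 2 + 2 * a ^ 2)
      ((hint.const_mul 2).add (integrable_const _)) (by fun_prop) ?_
    refine Eventually.of_forall fun x => ?_
    rw [Real.norm_of_nonneg (by positivity)]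
    nlinarith [sq_nonneg (x + a)]
  have hbound : ∫ x, tr μ ν x ^ 2 ∂ν ≤
      K ^ 2 * ((1 - l) + l * ((∫ x, (x - a) ^ 2 ∂ν) / (w - a) ^ 2)) := by
    have e1 : K ^ 2 * ((1 - l) + l * ((∫ x, (x - a) ^ 2 ∂ν) / (w - a) ^ 2)) =
        ∫ x, K ^ 2 * ((1 - l) + l * ((x - a) ^ 2 / (w - a) ^ 2)) ∂ν := by
      rw [integral_const_mul, integral_add (integrable_const _)
        ((hxa.div_const _).const_mul _), integral_const_mul, integral_div]
      simp
    rw [e1]
    refine integral_mono_of_nonneg (Eventually.of_forall fun x => by positivity)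
      (((integrable_const _).add ((hxa.div_const _).const_mul _)).const_mul _) ?_
    filter_upwards [h.ae_mem] with x hx
    have h1 := hs x hx.1 hx.2
    have hφ0 := hμ.tr_nonneg h hx.1 hx.2
    set g := (x - a) / (w - a) with hg
    have hg0 : 0 ≤ g := div_nonneg (by linarith [hx.1]) hwa.le
    have e2 : K + s * (x - w) = K * ((1 - l) + l * g) := by
      rw [hl, hg]
      field_simp
      ring
    rw [e2] at h1
    have e3 : (x - a) ^ 2 / (w - a) ^ 2 = g ^ 2 := by
      rw [hg, div_pow]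
    rw [e3]
    have h2 : tr μ ν x ^ 2 ≤ (K * ((1 - l) + l * g)) ^ 2 := pow_le_pow_left₀ hφ0 h1 2
    have h3 : ((1 - l) + l * g) ^ 2 ≤ (1 - l) + l * g ^ 2 := by
      nlinarith [mul_nonneg hl0 (sub_nonneg.mpr hl1), sq_nonneg (1 - g),
        mul_nonneg (mul_nonneg hl0 (sub_nonneg.mpr hl1)) (sq_nonneg (1 - g))]
    rw [mul_pow] at h2
    exact h2.trans (by gcongr)
  rw [h.integral_sq μ]
  refine hbound.trans ?_
  have hN : 0 ≤ (∫ x, (x - a) ^ 2 ∂ν) / (w - a) ^ 2 :=
    div_nonneg (integral_nonneg fun x => by positivity) (by positivity)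
  refine mul_le_mul_of_nonneg_left ?_ (by positivity)
  have h1 := le_max_left 1 ((∫ x, (x - a) ^ 2 ∂ν) / (w - a) ^ 2)
  have h2 := le_max_right 1 ((∫ x, (x - a) ^ 2 ∂ν) / (w - a) ^ 2)
  nlinarith [mul_le_mul_of_nonneg_left h2 hl0,
    mul_le_mul_of_nonneg_left h1 (sub_nonneg.mpr hl1)]

/-- the trivial bound -/
theorem trivial_bound (h : RefLaw ν a d) (hμ : Base μ) {w : ℝ} (haw : a < w)
    (hwd : (w : EReal) < d) :
    tr μ ν w ^ 2 * (1 - cdf ν w) ≤ ∫ y, y ^ 2 ∂μ := by
  have := hμ.prob
  have hφ2 : Integrable (fun x => tr μ ν x ^ 2) ν := (h.integrable_sq_iff μ).mp hμ.int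
  have hK0 := hμ.tr_nonneg h haw hwd
  have h1 : ∫ x, (Ioi w).indicator (fun _ => tr μ ν w ^ 2) x ∂ν =
      tr μ ν w ^ 2 * (1 - cdf ν w) := by
    rw [integral_indicator_const _ measurableSet_Ioi, smul_eq_mul, mul_comm]
    congr 1
    have : Ioi w = (Iic w)ᶜ := by simp
    rw [this, probReal_compl_eq_one_sub measurableSet_Iic, cdf_eq_real]
  rw [← h1, h.integral_sq μ]
  refine integral_mono_ae ((integrable_const _).indicator measurableSet_Ioi) hφ2 ?_
  filter_upwards [h.ae_mem] with x hx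
  by_cases hxw : x ∈ Ioi w
  · rw [indicator_of_mem hxw]
    exact pow_le_pow_left₀ hK0 (h.tr_mono μ haw (le_of_lt hxw) hx.2) 2
  · rw [indicator_of_notMem hxw]
    positivity

end Pool.Agent.V11109.Cvx
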