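import Pool.Agent.V11109.Cvx.Ineq

/-! The extremal laws. -/

open MeasureTheory ProbabilityTheory Set Filter Topology

namespace Pool.Agent.V11109.Cvx

variable {ν : Measure ℝ} [IsProbabilityMeasure ν] {a : ℝ} {d : EReal}

theorem cdf_map {ψ : ℝ → ℝ} (hψ : Measurable ψ) (t : ℝ) :
    cdf (ν.map ψ) t = ν.real {x | ψ x ≤ t} := by
  have : IsProbabilityMeasure (ν.map ψ) := Measure.isProbabilityMeasure_map hψ.aemeasurable
  rw [cdf_eq_real, map_measureReal_apply hψ measurableSet_Iic]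
  rfl

theorem quantile_map (h : RefLaw ν a d) {ψ : ℝ → ℝ} (hm : Monotone ψ) (hc : Continuous ψ) {w : ℝ}
    (haw : a < w) (hwd : (w : EReal) < d) : quantile (ν.map ψ) (cdf ν w) = ψ w := by
  have hp0 := h.cdf_pos haw
  have hp1 := h.cdf_lt_one hwd
  have key : ∀ t, quantile (ν.map ψ) (cdf ν w) ≤ t ↔ ψ w ≤ t := by
    intro t
    rw [quantile_le_iff _ hp0 hp1, cdf_map hc.measurable]
    constructor
    · intro h1
      by_contra hcon
      push Not at hcon
      have h2 : ∀ᶠ x in 𝓝[<] w, t < ψ x :=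
        ((hc.tendsto w).eventually (lt_mem_nhds hcon)).filter_mono nhdsWithin_le_nhds
      obtain ⟨x, hx, hxa⟩ := (h2.and (Ioo_mem_nhdsLT haw)).exists
      have h3 : ν.real {x | ψ x ≤ t} ≤ cdf ν x := by
        rw [cdf_eq_real]
        refine measureReal_mono fun y hy => ?_
        by_contra hcon2
        have hcon2 : x < y := by simpa using hcon2
        have hy' : ψ y ≤ t := hy
        exact absurd (hm hcon2.le) (not_le.mpr (lt_of_le_of_lt hy' hx))
      have h4 := (h.cdf_lt_iff hxa.1.le (lt_trans (by exact_mod_cast hxa.2) hwd)).mpr hxa.2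
      linarith
    · intro h1
      rw [cdf_eq_real]
      exact measureReal_mono fun y hy => (hm hy).trans h1
  exact le_antisymm ((key _).mpr le_rfl) ((key _).mp le_rfl)

theorem quantile_self (h : RefLaw ν a d) {p : ℝ} (hp0 : 0 < p) (hp1 : p < 1) :
    a < quantile ν p ∧ (quantile ν p : EReal) < d ∧ cdf ν (quantile ν p) = p := by
  obtain ⟨x, hax, hxd, hx⟩ := h.exists_eq hp0.le hp1
  have hax' : a < x := by
    refine lt_of_le_of_ne hax ?_
    rintro rfl
    rw [h.zero] at hx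
    exact hp0.ne hx
  have h1 := quantile_map h monotone_id continuous_id hax' hxd
  rw [Measure.map_id, hx] at h1
  rw [h1]
  exact ⟨hax', hxd, hx⟩

theorem sq_integral_ge {ψ : ℝ → ℝ} (hm : Monotone ψ) (h0 : ∀ x, 0 ≤ ψ x)
    (hint : Integrable (fun x => ψ x ^ 2) ν) (w : ℝ) :
    ψ w ^ 2 * (1 - cdf ν w) ≤ ∫ x, ψ x ^ 2 ∂ν := by
  have h1 : ∫ x, (Ioi w).indicator (fun _ => ψ w ^ 2) x ∂ν = ψ w ^ 2 * (1 - cdf ν w) := by
    rw [integral_indicator_const _ measurableSet_Ioi, smul_eq_mul, mul_comm]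
    congr 1
    have : Ioi w = (Iic w)ᶜ := by simp
    rw [this, probReal_compl_eq_one_sub measurableSet_Iic, cdf_eq_real]
  rw [← h1]
  refine integral_mono ((integrable_const _).indicator measurableSet_Ioi) hint fun x => ?_
  by_cases hxw : x ∈ Ioi w
  · rw [indicator_of_mem hxw]
    exact pow_le_pow_left₀ (h0 w) (hm (le_of_lt hxw)) 2
  · rw [indicator_of_notMem hxw]
    positivity

theorem sq_integral_le {ψ : ℝ → ℝ} (h0 : ∀ x, 0 ≤ ψ x) {c K : ℝ}
    (hc : ∀ x ≤ c, ψ x = 0) (hK : ∀ x, ψ x ≤ K) :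
    ∫ x, ψ x ^ 2 ∂ν ≤ K ^ 2 * (1 - cdf ν c) := by
  have h1 : ∫ x, (Ioi c).indicator (fun _ => K ^ 2) x ∂ν = K ^ 2 * (1 - cdf ν c) := by
    rw [integral_indicator_const _ measurableSet_Ioi, smul_eq_mul, mul_comm]
    congr 1
    have : Ioi c = (Iic c)ᶜ := by simp
    rw [this, probReal_compl_eq_one_sub measurableSet_Iic, cdf_eq_real]
  rw [← h1]
  refine integral_mono_of_nonneg (Eventually.of_forall fun x => by positivity)
    ((integrable_const _).indicator measurableSet_Ioi) (Eventually.of_forall fun x => ?_)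
  by_cases hxw : x ∈ Ioi c
  · rw [indicator_of_mem hxw]
    exact pow_le_pow_left₀ (h0 x) (hK x) 2
  · rw [indicator_of_notMem hxw]
    have : x ≤ c := by simpa using hxw
    simp [hc x this]

theorem base_map (h : RefLaw ν a d) {ψ : ℝ → ℝ} (hm : Monotone ψ) (hc : Continuous ψ)
    (h0 : ∀ x, 0 ≤ ψ x) (ha : ψ a = 0) (hint : Integrable (fun x => ψ x ^ 2) ν)
    {w : ℝ} (hwd : (w : EReal) < d) (hw : 0 < ψ w) : Base (ν.map ψ) where
  prob := Measure.isProbabilityMeasure_map hc.measurable.aemeasurable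
  neg x hx := by
    rw [cdf_map hc.measurable]
    have : {y | ψ y ≤ x} = ∅ := by
      ext y
      simp only [mem_setOf_eq, mem_empty_iff_false, iff_false, not_le]
      exact hx.trans_le (h0 y)
    rw [this]
    simp
  pos x hx := by
    rw [cdf_map hc.measurable]
    have h1 : ∀ᶠ y in 𝓝[>] a, ψ y ≤ x := by
      have h2 : ∀ᶠ y in 𝓝 a, ψ y < x := (hc.tendsto a).eventually (gt_mem_nhds (by rw [ha]; exact hx))
      exact (h2.mono fun y hy => hy.le).filter_mono nhdsWithin_le_nhds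
    obtain ⟨y, hy, hay⟩ := (h1.and self_mem_nhdsWithin).exists
    refine (h.cdf_pos hay).trans_le ?_
    rw [cdf_eq_real]
    exact measureReal_mono fun z hz => (hm hz).trans hy
  int := (integrable_map_measure (by fun_prop) hc.measurable.aemeasurable).mpr hint
  mpos := by
    rw [integral_map hc.measurable.aemeasurable (by fun_prop)]
    exact lt_of_lt_of_le (mul_pos (by positivity) (sub_pos.mpr (h.cdf_lt_one hwd)))
      (sq_integral_ge hm h0 hint w)

theorem convex_suppI (μ : Measure ℝ) : Convex ℝ (suppI μ) := by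
  rw [convex_iff_ordConnected]
  exact ⟨fun x hx y hy z hz => ⟨hx.1.trans hz.1, fun u hu => hy.2 u (hu.trans_le hz.2)⟩⟩

theorem Winv_cdf (h : RefLaw ν a d) {x : ℝ} (hax : a ≤ x) (hxd : (x : EReal) ≤ d) :
    Winv ν a (cdf ν x) = x := by
  refine le_antisymm ((Winv_le_iff h x).mpr ⟨hax, le_rfl⟩)
    ((le_Winv_iff x).mpr fun s has hsx => ?_)
  exact (h.cdf_lt_iff has (lt_of_lt_of_le (by exact_mod_cast hsx) hxd)).mpr hsx

/-- the law of `(X - c)₊` -/
noncomputable def m1 (ν : Measure ℝ) (c : ℝ) : Measure ℝ := ν.map fun x => max (x - c) 0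

/-- the law of `min ((X - c)₊) K` -/
noncomputable def m2 (ν : Measure ℝ) (c K : ℝ) : Measure ℝ := ν.map fun x => min (max (x - c) 0) K

theorem cdf_m1 {c t : ℝ} (ht : 0 ≤ t) : cdf (m1 ν c) t = cdf ν (c + t) := by
  rw [m1, cdf_map (by fun_prop), cdf_eq_real]
  congr 1
  ext x
  simp only [mem_setOf_eq, max_le_iff, mem_Iic]
  constructor
  · intro h
    linarith [h.1]
  · intro h
    exact ⟨by linarith, ht⟩

theorem cdf_m2 {c K t : ℝ} (ht : 0 ≤ t) (htK : t < K) : cdf (m2 ν c K) t = cdf ν (c + t) := by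
  rw [m2, cdf_map (by fun_prop), cdf_eq_real]
  congr 1
  ext x
  simp only [mem_setOf_eq, min_le_iff, max_le_iff, mem_Iic]
  constructor
  · rintro (h | h)
    · linarith [h.1]
    · linarith
  · intro h
    exact Or.inl ⟨by linarith, ht⟩

theorem cdf_m2' {c K t : ℝ} (htK : K ≤ t) : cdf (m2 ν c K) t = 1 := by
  rw [m2, cdf_map (by fun_prop)]
  have : {x : ℝ | min (max (x - c) 0) K ≤ t} = univ := by
    ext x
    simp [htK]
  rw [this]
  simp

theorem winv_m1 (h : RefLaw ν a d) {c : ℝ} (hac : a ≤ c) (hcd : (c : EReal) < d) {t : ℝ}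
    (ht : t ∈ suppI (m1 ν c)) : Winv ν a (cdf (m1 ν c) t) = ((c + t : ℝ) : EReal) := by
  have hd : ((c + t : ℝ) : EReal) ≤ d := by
    by_contra hcon
    push Not at hcon
    obtain ⟨y, h1, h2⟩ := EReal.exists_between_coe_real hcon
    have hcy : c < y := by exact_mod_cast hcd.trans h1
    have hyt : y < c + t := by exact_mod_cast h2
    have h3 := ht.2 (y - c) (by linarith)
    rw [cdf_m1 (by linarith), add_sub_cancel, h.one y h1.le] at h3
    exact lt_irrefl _ h3
  rw [cdf_m1 ht.1, Winv_cdf h (by linarith [ht.1]) hd]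

theorem concaveRel_m1 (h : RefLaw ν a d) {c : ℝ} (hac : a ≤ c) (hcd : (c : EReal) < d) :
    ConcaveRel ν a (m1 ν c) := by
  rintro ⟨t, y⟩ ⟨ht, hy⟩ ⟨t', y'⟩ ⟨ht', hy'⟩ s s' hs hs' hss
  have hmem := convex_suppI _ ht ht' hs hs' hss
  refine ⟨hmem, ?_⟩
  have e := winv_m1 h hac hcd hmem
  have e1 := winv_m1 h hac hcd ht
  have e2 := winv_m1 h hac hcd ht'
  simp only at hy hy'
  rw [e1] at hy
  rw [e2] at hy'
  have hy1 : y ≤ c + t := by exact_mod_cast hy
  have hy2 : y' ≤ c + t' := by exact_mod_cast hy'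
  change ((s • y + s' • y' : ℝ) : EReal) ≤ Winv ν a (cdf (m1 ν c) (s • t + s' • t'))
  rw [e]
  simp only [smul_eq_mul]
  have : s * y + s' * y' ≤ c + (s * t + s' * t') := by
    have h1 := mul_le_mul_of_nonneg_left hy1 hs
    have h2 := mul_le_mul_of_nonneg_left hy2 hs'
    have h3 : c = s * c + s' * c := by rw [← add_mul, hss, one_mul]
    nlinarith
  exact_mod_cast this

theorem convexRel_m1 (h : RefLaw ν a d) {c : ℝ} (hac : a ≤ c) (hcd : (c : EReal) < d) :
    ConvexRel ν a (m1 ν c) := by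
  rintro ⟨t, y⟩ ⟨ht, hy⟩ ⟨t', y'⟩ ⟨ht', hy'⟩ s s' hs hs' hss
  have hmem := convex_suppI _ ht ht' hs hs' hss
  refine ⟨hmem, ?_⟩
  have e := winv_m1 h hac hcd hmem
  have e1 := winv_m1 h hac hcd ht
  have e2 := winv_m1 h hac hcd ht'
  simp only at hy hy'
  rw [e1] at hy
  rw [e2] at hy'
  have hy1 : c + t ≤ y := by exact_mod_cast hy
  have hy2 : c + t' ≤ y' := by exact_mod_cast hy'
  change Winv ν a (cdf (m1 ν c) (s • t + s' • t')) ≤ ((s • y + s' • y' : ℝ) : EReal)
  rw [e]
  simp only [smul_eq_mul]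
  have : c + (s * t + s' * t') ≤ s * y + s' * y' := by
    have h1 := mul_le_mul_of_nonneg_left hy1 hs
    have h2 := mul_le_mul_of_nonneg_left hy2 hs'
    have h3 : c = s * c + s' * c := by rw [← add_mul, hss, one_mul]
    nlinarith
  exact_mod_cast this

theorem epi_m2 (h : RefLaw ν a d) {c K : ℝ} (hac : a ≤ c) (hK : ((c + K : ℝ) : EReal) < d)
    {t : ℝ} (ht : 0 ≤ t) (y : ℝ) :
    Winv ν a (cdf (m2 ν c K) t) ≤ y ↔ (t < K ∧ c + t ≤ y) ∨ (K ≤ t ∧ d ≤ y) := by
  rw [Winv_le_iff h]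
  rcases lt_or_ge t K with htK | htK
  · rw [cdf_m2 ht htK]
    have hlt : ((c + t : ℝ) : EReal) < d :=
      lt_trans (by exact_mod_cast (by linarith : c + t < c + K)) hK
    constructor
    · rintro ⟨h1, h2⟩
      left
      refine ⟨htK, ?_⟩
      by_contra hcon
      push Not at hcon
      have h3 := (h.cdf_lt_iff (y := c + t) h1 (lt_trans (by exact_mod_cast hcon) hlt)).mpr hcon
      linarith
    · rintro (⟨_, h1⟩ | ⟨h1, _⟩)
      · exact ⟨by linarith, monotone_cdf ν h1⟩
      · exact absurd h1 (not_le.mpr htK)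
  · rw [cdf_m2' htK]
    constructor
    · rintro ⟨h1, h2⟩
      right
      refine ⟨htK, ?_⟩
      by_contra hcon
      push Not at hcon
      have := h.cdf_lt_one hcon
      linarith
    · rintro (⟨h1, _⟩ | ⟨_, h1⟩)
      · exact absurd h1 (not_lt.mpr htK)
      · refine ⟨?_, (h.one y h1).ge⟩
        have : (a : EReal) ≤ y := h.a_lt_d.le.trans h1
        exact_mod_cast this

theorem convexRel_m2 (h : RefLaw ν a d) {c K : ℝ} (hac : a ≤ c) (hK : ((c + K : ℝ) : EReal) < d) :
    ConvexRel ν a (m2 ν c K) := by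
  have hle : ∀ t ∈ suppI (m2 ν c K), t ≤ K := by
    intro t ht
    by_contra hcon
    push Not at hcon
    have := ht.2 K hcon
    rw [cdf_m2' le_rfl] at this
    exact lt_irrefl _ this
  have hval : ∀ t y : ℝ, ((t < K ∧ c + t ≤ y) ∨ (K ≤ t ∧ d ≤ y)) → t ≤ K → c + t ≤ y := by
    rintro t y (⟨_, h1⟩ | ⟨h0, h1⟩) h2
    · exact h1
    · have : ((c + K : ℝ) : EReal) < y := hK.trans_le h1
      have : c + K < y := by exact_mod_cast this
      linarith
  rintro ⟨t, y⟩ ⟨ht, hy⟩ ⟨t', y'⟩ ⟨ht', hy'⟩ s s' hs hs' hss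
  have hmem := convex_suppI _ ht ht' hs hs' hss
  refine ⟨hmem, ?_⟩
  change Winv ν a (cdf (m2 ν c K) (s • t + s' • t')) ≤ ((s • y + s' • y' : ℝ) : EReal)
  rcases hs.lt_or_eq with hs0 | hs0
  swap
  · have : s' = 1 := by linarith
    subst this
    rw [← hs0]
    simpa using hy'
  rcases hs'.lt_or_eq with hs0' | hs0'
  swap
  · have : s = 1 := by linarith
    subst this
    rw [← hs0']
    simpa using hy
  rw [epi_m2 h hac hK hmem.1]
  simp only at hy hy'
  rw [epi_m2 h hac hK ht.1] at hy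
  rw [epi_m2 h hac hK ht'.1] at hy'
  have h1 := hval t y hy (hle t ht)
  have h2 := hval t' y' hy' (hle t' ht')
  have h3 : c = s * c + s' * c := by rw [← add_mul, hss, one_mul]
  have h3' : K = s * K + s' * K := by rw [← add_mul, hss, one_mul]
  simp only [smul_eq_mul]
  have m1 := mul_le_mul_of_nonneg_left h1 hs
  have m2 := mul_le_mul_of_nonneg_left h2 hs'
  rcases hy with ⟨ha1, ha2⟩ | ⟨ha1, ha2⟩
  · left
    have n1 := mul_lt_mul_of_pos_left ha1 hs0
    have n2 := mul_le_mul_of_nonneg_left (hle t' ht') hs'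
    exact ⟨by linarith, by linarith⟩
  · rcases hy' with ⟨hb1, hb2⟩ | ⟨hb1, hb2⟩
    · left
      have n1 := mul_lt_mul_of_pos_left hb1 hs0'
      have n2 := mul_le_mul_of_nonneg_left (hle t ht) hs
      exact ⟨by linarith, by linarith⟩
    · right
      have n1 := mul_le_mul_of_nonneg_left ha1 hs
      have n2 := mul_le_mul_of_nonneg_left hb1 hs'
      refine ⟨by linarith, ?_⟩
      have h4 : min y y' ≤ s * y + s' * y' := by
        have q1 := mul_le_mul_of_nonneg_left (min_le_left y y') hs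
        have q2 := mul_le_mul_of_nonneg_left (min_le_right y y') hs'
        have q3 : min y y' = s * min y y' + s' * min y y' := by rw [← add_mul, hss, one_mul]
        linarith
      have h5 : d ≤ ((min y y' : ℝ) : EReal) := by
        rcases min_cases y y' with ⟨h, _⟩ | ⟨h, _⟩ <;> rw [h] <;> assumption
      exact h5.trans (by exact_mod_cast h4)

theorem base_m1 (h : RefLaw ν a d) (hint : Integrable (fun x : ℝ => x ^ 2) ν) {c : ℝ}
    (hac : a ≤ c) (hcd : (c : EReal) < d) : Base (m1 ν c) := by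
  obtain ⟨w, hcw, hwd⟩ := h.exists_between hcd
  refine base_map h (w := w) ?_ (by fun_prop) (fun x => le_max_right _ _) ?_ ?_ hwd ?_
  · intro x y hxy
    exact max_le_max (by linarith) le_rfl
  · rw [max_eq_right (by linarith)]
  · refine Integrable.mono' (g := fun x : ℝ => 2 * x ^ 2 + 2 * c ^ 2)
      ((hint.const_mul 2).add (integrable_const _)) (by fun_prop) ?_
    refine Eventually.of_forall fun x => ?_
    rw [Real.norm_of_nonneg (by positivity)]
    have h1 : max (x - c) 0 ^ 2 ≤ (x - c) ^ 2 := by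
      rcases le_total (x - c) 0 with h | h
      · rw [max_eq_right h]
        nlinarith [sq_nonneg (x - c)]
      · rw [max_eq_left h]
    nlinarith [sq_nonneg (x + c)]
  · exact lt_max_of_lt_left (by linarith)

theorem mono_m2 (c K : ℝ) : Monotone fun x : ℝ => min (max (x - c) 0) K := by
  intro x y hxy
  exact min_le_min (max_le_max (by linarith) le_rfl) le_rfl

theorem int_m2 (c : ℝ) {K : ℝ} (hK : 0 ≤ K) :
    Integrable (fun x : ℝ => min (max (x - c) 0) K ^ 2) ν := by
  refine Integrable.mono' (g := fun _ : ℝ => K ^ 2) (integrable_const _) (by fun_prop) ?_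
  refine Eventually.of_forall fun x => ?_
  rw [Real.norm_of_nonneg (by positivity)]
  exact pow_le_pow_left₀ (le_min (le_max_right _ _) hK) (min_le_right _ _) 2

theorem base_m2 (h : RefLaw ν a d) {c K : ℝ} (hac : a ≤ c) (hK0 : 0 < K)
    (hK : ((c + K : ℝ) : EReal) < d) : Base (m2 ν c K) := by
  refine base_map h (w := c + K) (mono_m2 c K) (by fun_prop)
    (fun x => le_min (le_max_right _ _) hK0.le) ?_ (int_m2 c hK0.le) hK ?_
  · rw [max_eq_right (by linarith), min_eq_left hK0.le]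
  · rw [add_sub_cancel_left, max_eq_left hK0.le, min_self]
    exact hK0

theorem m1_zero (h : RefLaw ν a d) : cdf (m1 ν a) 0 = 0 := by
  rw [cdf_m1 le_rfl, add_zero, h.zero]

theorem m2_zero (h : RefLaw ν a d) {K : ℝ} (hK : 0 < K) : cdf (m2 ν a K) 0 = 0 := by
  rw [cdf_m2 le_rfl hK, add_zero, h.zero]

theorem quantile_m1 (h : RefLaw ν a d) {w : ℝ} (haw : a < w) (hwd : (w : EReal) < d) (c : ℝ) :
    quantile (m1 ν c) (cdf ν w) = max (w - c) 0 :=
  quantile_map h (fun x y hxy => max_le_max (by linarith) le_rfl) (by fun_prop) haw hwd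

theorem quantile_m2 (h : RefLaw ν a d) {w : ℝ} (haw : a < w) (hwd : (w : EReal) < d) (c K : ℝ) :
    quantile (m2 ν c K) (cdf ν w) = min (max (w - c) 0) K :=
  quantile_map h (mono_m2 c K) (by fun_prop) haw hwd

theorem moment_m1 (c : ℝ) : ∫ y, y ^ 2 ∂(m1 ν c) = ∫ x, max (x - c) 0 ^ 2 ∂ν := by
  rw [m1, integral_map (by fun_prop) (by fun_prop)]

theorem moment_m2 (c K : ℝ) : ∫ y, y ^ 2 ∂(m2 ν c K) = ∫ x, min (max (x - c) 0) K ^ 2 ∂ν := by
  rw [m2, integral_map (by fun_prop) (by fun_prop)]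

end Pool.Agent.V11109.Cvx
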