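import Pool.Agent.V11109.Cvx.Base

/-! The convex transform order and the shape of the quantile transform. -/

open MeasureTheory ProbabilityTheory Set Filter Topology

namespace Pool.Agent.V11109.Cvx

/-- The inverse `W⁻¹ : [0,1] → [a, d]` of the reference distribution function, with values in the
extended reals: `W⁻¹ u = inf {x ≥ a : W x ≥ u}`, equal to `+∞` if there is no such `x`. -/
noncomputable def Winv (ν : Measure ℝ) (a u : ℝ) : EReal :=
  sInf ((fun x : ℝ => (x : EReal)) '' {x : ℝ | a ≤ x ∧ u ≤ cdf ν x})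

/-- The support interval of a law with left endpoint `0`: all `x ≥ 0` with `F y < 1` for `y < x`. -/
def suppI (μ : Measure ℝ) : Set ℝ := {x : ℝ | 0 ≤ x ∧ ∀ y < x, cdf μ y < 1}

/-- `W⁻¹ ∘ F` is convex on the support interval of `F` (as an extended real valued function, i.e.
its epigraph is convex). -/
def ConvexRel (ν : Measure ℝ) (a : ℝ) (μ : Measure ℝ) : Prop :=
  Convex ℝ {p : ℝ × ℝ | p.1 ∈ suppI μ ∧ Winv ν a (cdf μ p.1) ≤ p.2}

/-- `W⁻¹ ∘ F` is concave on the support interval of `F` (as an extended real valued function, i.e.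
its hypograph is convex). -/
def ConcaveRel (ν : Measure ℝ) (a : ℝ) (μ : Measure ℝ) : Prop :=
  Convex ℝ {p : ℝ × ℝ | p.1 ∈ suppI μ ∧ (p.2 : EReal) ≤ Winv ν a (cdf μ p.1)}

/-- probability measures on the line with left endpoint of the support equal to `0` and with
positive and finite second moment -/
structure Base (μ : Measure ℝ) : Prop where
  prob : IsProbabilityMeasure μ
  neg : ∀ x < 0, cdf μ x = 0
  pos : ∀ x > 0, 0 < cdf μ x
  int : Integrable (fun x : ℝ => x ^ 2) μ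
  mpos : 0 < ∫ x, x ^ 2 ∂μ

variable {ν : Measure ℝ} [IsProbabilityMeasure ν] {a : ℝ} {d : EReal}

theorem Winv_le_iff (h : RefLaw ν a d) {u : ℝ} (r : ℝ) :
    Winv ν a u ≤ r ↔ a ≤ r ∧ u ≤ cdf ν r := by
  constructor
  · intro h1
    have h2 : ∀ s : ℝ, r < s → a ≤ s ∧ u ≤ cdf ν s := by
      intro s hs
      have h3 : Winv ν a u < s := lt_of_le_of_lt h1 (by exact_mod_cast hs)
      obtain ⟨y, ⟨x, hx, rfl⟩, hxs⟩ := sInf_lt_iff.mp h3
      have hxs' : x < s := EReal.coe_lt_coe_iff.mp hxs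
      exact ⟨hx.1.trans hxs'.le, hx.2.trans (monotone_cdf ν hxs'.le)⟩
    refine ⟨le_of_forall_gt_imp_ge_of_dense fun s hs => (h2 s hs).1, ?_⟩
    have h3 : Tendsto (cdf ν) (𝓝[>] r) (𝓝 (cdf ν r)) :=
      (h.continuous_cdf.tendsto r).mono_left nhdsWithin_le_nhds
    refine ge_of_tendsto h3 ?_
    filter_upwards [self_mem_nhdsWithin] with s hs
    exact (h2 s hs).2
  · intro h1
    exact sInf_le ⟨r, h1, rfl⟩

theorem le_Winv_iff {u : ℝ} (r : ℝ) :
    (r : EReal) ≤ Winv ν a u ↔ ∀ s : ℝ, a ≤ s → s < r → cdf ν s < u := by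
  constructor
  · intro h1 s hs hsr
    by_contra hcon
    push Not at hcon
    have h2 : Winv ν a u ≤ s := sInf_le ⟨s, ⟨hs, hcon⟩, rfl⟩
    exact absurd (h1.trans h2) (not_le.mpr (by exact_mod_cast hsr))
  · intro h1
    refine le_sInf ?_
    rintro _ ⟨x, ⟨hx, hux⟩, rfl⟩
    by_contra hcon
    push Not at hcon
    have hcon' : x < r := by exact_mod_cast hcon
    exact absurd (h1 x hx hcon') (not_lt.mpr hux)

variable {μ : Measure ℝ}

theorem Base.tr_nonneg (h : RefLaw ν a d) (hμ : Base μ) {x : ℝ} (hx : a < x)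
    (hxd : (x : EReal) < d) : 0 ≤ RefLaw.tr μ ν x := by
  by_contra hcon
  push Not at hcon
  have h1 := h.le_cdf_tr μ hx hxd
  rw [hμ.neg _ hcon] at h1
  exact absurd (h.cdf_pos hx) (not_lt.mpr h1)

/-- the transform tends to `0` at `a` -/
theorem Base.exists_tr_le (h : RefLaw ν a d) (hμ : Base μ) {ε : ℝ} (hε : 0 < ε) :
    ∃ b : ℝ, a < b ∧ (b : EReal) < d ∧ ∀ x : ℝ, a < x → x ≤ b → RefLaw.tr μ ν x ≤ ε := by
  have h1 := hμ.pos ε hε
  obtain ⟨c, hac, hcd⟩ := h.exists_between h.a_lt_d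
  have h0 : 0 < min (cdf μ ε) (cdf ν c) := lt_min h1 (h.cdf_pos hac)
  obtain ⟨b, hab, hbd, hb⟩ := h.exists_eq h0.le ((min_le_right _ _).trans_lt (h.cdf_lt_one hcd))
  have hab' : a < b := by
    refine lt_of_le_of_ne hab ?_
    rintro rfl
    rw [h.zero] at hb
    linarith
  refine ⟨b, hab', hbd, fun x hx hxb => ?_⟩
  rw [h.tr_le_iff μ hx (lt_of_le_of_lt (by exact_mod_cast hxb) hbd)]
  exact (monotone_cdf ν hxb).trans (hb.le.trans (min_le_left _ _))

/-- If `W⁻¹ ∘ F` is concave then the transform is convex. -/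
theorem convexOn_tr (h : RefLaw ν a d) (hμ : Base μ) (hc : ConcaveRel ν a μ) :
    ConvexOn ℝ {x : ℝ | a < x ∧ (x : EReal) < d} (RefLaw.tr μ ν) := by
  have hdom : Convex ℝ {x : ℝ | a < x ∧ (x : EReal) < d} := by
    rw [convex_iff_ordConnected]
    refine ⟨fun x hx y hy z hz => ⟨hx.1.trans_le hz.1, lt_of_le_of_lt ?_ hy.2⟩⟩
    exact_mod_cast hz.2
  refine ⟨hdom, fun x hx y hy s t hs ht hst => ?_⟩
  have hmem : ∀ x : ℝ, a < x → (x : EReal) < d →
      ((RefLaw.tr μ ν x, x) : ℝ × ℝ) ∈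
        {p : ℝ × ℝ | p.1 ∈ suppI μ ∧ (p.2 : EReal) ≤ Winv ν a (cdf μ p.1)} := by
    intro x hx hxd
    refine ⟨⟨hμ.tr_nonneg h hx hxd, fun y hy => ?_⟩, ?_⟩
    · exact ((h.lt_tr_iff μ hx hxd y).mp hy).trans (h.cdf_lt_one hxd)
    · rw [le_Winv_iff]
      intro s has hsx
      refine lt_of_lt_of_le ?_ (h.le_cdf_tr μ hx hxd)
      exact (h.cdf_lt_iff has (lt_trans (by exact_mod_cast hsx) hxd)).mpr hsx
  have hz := hdom hx hy hs ht hst
  have hmz := hc (hmem x hx.1 hx.2) (hmem y hy.1 hy.2) hs ht hst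
  set v := s • RefLaw.tr μ ν x + t • RefLaw.tr μ ν y with hv
  set z := s • x + t • y with hzdef
  have h1 : (z : EReal) ≤ Winv ν a (cdf μ v) := hmz.2
  rw [h.tr_le_iff μ hz.1 hz.2]
  rw [le_Winv_iff] at h1
  have h3 : Tendsto (cdf ν) (𝓝[<] z) (𝓝 (cdf ν z)) :=
    (h.continuous_cdf.tendsto z).mono_left nhdsWithin_le_nhds
  refine le_of_tendsto h3 ?_
  filter_upwards [Ioo_mem_nhdsLT hz.1] with r hr
  exact (h1 r hr.1.le hr.2).le

/-- If `W⁻¹ ∘ F` is convex and `F` has no atom at `0` then the transform is concave. -/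
theorem concaveOn_tr (h : RefLaw ν a d) (hμ : Base μ) (h0 : cdf μ 0 = 0) (hc : ConvexRel ν a μ) :
    ConcaveOn ℝ {x : ℝ | a < x ∧ (x : EReal) < d} (RefLaw.tr μ ν) := by
  have hdom : Convex ℝ {x : ℝ | a < x ∧ (x : EReal) < d} := by
    rw [convex_iff_ordConnected]
    refine ⟨fun x hx y hy z hz => ⟨hx.1.trans_le hz.1, lt_of_le_of_lt ?_ hy.2⟩⟩
    exact_mod_cast hz.2
  refine ⟨hdom, fun x hx y hy s t hs ht hst => ?_⟩
  have hpos : ∀ x : ℝ, a < x → (x : EReal) < d → 0 < RefLaw.tr μ ν x := by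
    intro x hx hxd
    rw [h.lt_tr_iff μ hx hxd, h0]
    exact h.cdf_pos hx
  -- points just below the transform
  have hmem : ∀ x : ℝ, a < x → (x : EReal) < d → ∀ x' : ℝ, 0 ≤ x' → x' < RefLaw.tr μ ν x →
      ∃ r : ℝ, r < x ∧ a ≤ r ∧ ((x', r) : ℝ × ℝ) ∈
        {p : ℝ × ℝ | p.1 ∈ suppI μ ∧ Winv ν a (cdf μ p.1) ≤ p.2} := by
    intro x hx hxd x' hx'0 hx'
    have h1 := (h.lt_tr_iff μ hx hxd x').mp hx'
    have h2 := h1.trans (h.cdf_lt_one hxd)
    obtain ⟨r, har, hrd, hr⟩ := h.exists_eq (cdf_nonneg μ x') h2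
    refine ⟨r, ?_, har, ⟨hx'0, fun y hy => (monotone_cdf μ hy.le).trans_lt h2⟩, ?_⟩
    · rw [← h.cdf_lt_iff har hrd, hr]
      exact h1
    · rw [Winv_le_iff h]
      exact ⟨har, hr.ge⟩
  have hz := hdom hx hy hs ht hst
  set z := s • x + t • y with hzdef
  have hpx := hpos x hx.1 hx.2
  have hpy := hpos y hy.1 hy.2
  by_contra hcon
  push Not at hcon
  simp only [smul_eq_mul] at hcon
  set v := s * RefLaw.tr μ ν x + t * RefLaw.tr μ ν y with hv
  have hv0 : 0 < v := by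
    rcases hs.lt_or_eq with hs' | hs'
    · have := mul_pos hs' hpx
      have := mul_nonneg ht hpy.le
      linarith
    · have : 0 < t := by linarith
      have := mul_pos this hpy
      have := mul_nonneg hs hpx.le
      linarith
  -- choose `η < 1` with `η v` still above the value at `z`
  obtain ⟨w, hw1, hw2⟩ := exists_between hcon
  have hw0 : 0 ≤ w := (hμ.tr_nonneg h hz.1 hz.2).trans hw1.le
  set η := w / v with hη
  have hη0 : 0 ≤ η := by positivity
  have hη1 : η < 1 := (div_lt_one hv0).mpr hw2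
  have hηv : s * (η * RefLaw.tr μ ν x) + t * (η * RefLaw.tr μ ν y) = w := by
    have : η * v = w := div_mul_cancel₀ w hv0.ne'
    rw [← this, hv]
    ring
  obtain ⟨r, hrx, har, hrmem⟩ := hmem x hx.1 hx.2 (η * RefLaw.tr μ ν x) (by positivity)
    (by nlinarith)
  obtain ⟨r', hry, har', hrmem'⟩ := hmem y hy.1 hy.2 (η * RefLaw.tr μ ν y) (by positivity)
    (by nlinarith)
  have hmz := hc hrmem hrmem' hs ht hst
  have h1 : Winv ν a (cdf μ (s * (η * RefLaw.tr μ ν x) + t * (η * RefLaw.tr μ ν y))) ≤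
      ((s * r + t * r' : ℝ) : EReal) := hmz.2
  rw [hηv, Winv_le_iff h] at h1
  have h2 : s * r + t * r' < z := by
    rw [hzdef]
    simp only [smul_eq_mul]
    rcases hs.lt_or_eq with hs' | hs'
    · have := mul_lt_mul_of_pos_left hrx hs'
      have := mul_le_mul_of_nonneg_left hry.le ht
      linarith
    · have ht' : 0 < t := by linarith
      have := mul_lt_mul_of_pos_left hry ht'
      have := mul_le_mul_of_nonneg_left hrx.le hs
      linarith
  have h3 : cdf ν (s * r + t * r') < cdf ν z :=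
    (h.cdf_lt_iff h1.1 (lt_trans (by exact_mod_cast h2) hz.2)).mpr h2
  have h4 : cdf ν z ≤ cdf μ w := (h.le_cdf_tr μ hz.1 hz.2).trans (monotone_cdf μ hw1.le)
  linarith [h1.2]

end Pool.Agent.V11109.Cvx
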